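import Mathlib

/-!
# The tree of the inner nodes of a tree (MP_92efc2)
-/

set_option autoImplicit false

namespace Pool.Agent.Helper71.TVW

variable {W : Type*} (T : SimpleGraph W)

/-- the inner nodes: at least two neighbours -/
def inner : Set W := {v | ∃ a b, a ≠ b ∧ T.Adj v a ∧ T.Adj v b}

variable {T}

theorem leaf_unique {u a b : W} (hu : u ∉ inner T) (ha : T.Adj u a) (hb : T.Adj u b) : a = b := by
  by_contra h
  exact hu ⟨a, b, h, ha, hb⟩

theorem exists_nbr [Fintype W] (hT : T.Connected) (hW : 2 ≤ Fintype.card W) (u : W) : ∃ a, T.Adj u a := by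
  classical
  obtain ⟨v, hv⟩ : ∃ v, v ≠ u := by
    by_contra hcon
    push Not at hcon
    have : Fintype.card W ≤ 1 := Fintype.card_le_one_iff.2 fun a b => (hcon a).trans (hcon b).symm
    omega
  obtain ⟨p⟩ := hT.preconnected u v
  cases p with
  | nil => exact absurd rfl hv
  | cons h p => exact ⟨_, h⟩

theorem nbr_inner [Fintype W] (hT : T.Connected) (hW : 3 ≤ Fintype.card W) {u p : W} (hu : u ∉ inner T)
    (hp : T.Adj u p) : p ∈ inner T := by
  classical
  by_contra hpI
  have key : ∀ x y : W, T.Walk x y → (x = u ∨ x = p) → (y = u ∨ y = p) := by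
    intro x y q
    induction q with
    | nil => exact fun h => h
    | cons h q ih =>
      intro hx
      apply ih
      rcases hx with rfl | rfl
      · exact Or.inr (leaf_unique hu h hp)
      · exact Or.inl (leaf_unique hpI h hp.symm)
  have hall : ∀ y, y = u ∨ y = p := fun y => by
    obtain ⟨q⟩ := hT.preconnected u y
    exact key u y q (Or.inl rfl)
  have h1 : (Finset.univ : Finset W) ⊆ {u, p} := by
    intro y _
    rcases hall y with rfl | rfl <;> simp
  have h2 := Finset.card_le_card h1
  have h3 : ({u, p} : Finset W).card ≤ 2 := Finset.card_le_two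
  rw [Finset.card_univ] at h2
  omega

theorem reach_inner (n : ℕ) : ∀ (u v : W) (hu : u ∈ inner T) (hv : v ∈ inner T) (q : T.Walk u v), q.length ≤ n →
    (T.induce (inner T)).Reachable ⟨u, hu⟩ ⟨v, hv⟩ := by
  induction n using Nat.strong_induction_on with
  | _ n ih =>
    intro u v hu hv q hq
    cases q with
    | nil => exact SimpleGraph.Reachable.refl _
    | @cons _ x _ h q' =>
      rw [SimpleGraph.Walk.length_cons] at hq
      by_cases hx : x ∈ inner T
      · have h1 := ih (n - 1) (by omega) x v hx hv q' (by omega)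
        have h2 : (T.induce (inner T)).Adj ⟨u, hu⟩ ⟨x, hx⟩ := h
        exact h2.reachable.trans h1
      · cases q' with
        | nil => exact absurd hv hx
        | @cons _ y _ h' q'' =>
          rw [SimpleGraph.Walk.length_cons] at hq
          have hyu : y = u := leaf_unique hx h' h.symm
          subst hyu
          exact ih (n - 2) (by omega) y v hu hv q'' (by omega)

theorem inner_tree [Fintype W] (hT : T.IsTree) (hW : 3 ≤ Fintype.card W) : (T.induce (inner T)).IsTree := by
  have hne : Nonempty (inner T) := by
    obtain ⟨u⟩ := hT.connected.nonempty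
    by_cases hu : u ∈ inner T
    · exact ⟨⟨u, hu⟩⟩
    · obtain ⟨p, hp⟩ := exists_nbr hT.connected (by omega) u
      exact ⟨⟨p, nbr_inner hT.connected hW hu hp⟩⟩
  refine ⟨{ preconnected := ?_, nonempty := hne }, hT.isAcyclic.induce _⟩
  rintro ⟨u, hu⟩ ⟨v, hv⟩
  obtain ⟨q⟩ := hT.connected.preconnected u v
  exact reach_inner q.length u v hu hv q le_rfl

end Pool.Agent.Helper71.TVW
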