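import Pool.Agent.Helper71.TVW.Slabs
import Pool.Agent.Helper71.TVW.Inner
import Pool.Agent.Helper71.TVS.Upper

/-!
# Trees in odd dimension: the leaves are carved out of the slabs (MP_92efc2)
-/

set_option autoImplicit false

open Finset

namespace Pool.Agent.Helper71.TVW

open Pool.Agent.Helper71.TVS (GP)

variable {E : Type*} [NormedAddCommGroup E] [NormedSpace ℝ E] [DecidableEq E]

/-- the hulls of two finite sets meet -/
abbrev M (A B : Finset E) : Prop := Pool.Agent.Helper71.TVS.Meet A B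

theorem M.mono {A B A' B' : Finset E} (h : M A B) (hA : A ⊆ A') (hB : B ⊆ B') : M A' B' :=
  Pool.Agent.Helper71.TVS.Meet.mono h hA hB

theorem M.symm {A B : Finset E} (h : M A B) : M B A := Pool.Agent.Helper71.TVS.Meet.symm h

theorem tree_upper [FiniteDimensional ℝ E] {k : ℕ} (hk : 1 ≤ k) (hE : Module.finrank ℝ E = 2 * k + 1) {ε : ℝ}
    (hε : 0 < ε) : ∃ C : ℕ, ∀ (W : Type) [Fintype W] (T : SimpleGraph W), T.IsTree → 3 ≤ Fintype.card W →
      ∀ S : Finset E, GP (2 * k + 1) S →
      ((k : ℝ) + 1 + ε) * Fintype.card W + C * (inner T).ncard ≤ S.card →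
      ∃ P : W → Finset E, (∀ u, (P u).Nonempty) ∧ (∀ u u', u ≠ u' → Disjoint (P u) (P u')) ∧
        (∀ x, x ∈ S ↔ ∃ u, x ∈ P u) ∧ ∀ u u', u ≠ u' → (M (P u) (P u') ↔ T.Adj u u') := by
  classical
  obtain ⟨N₀, hN₀⟩ := Pool.Agent.Helper71.TVS.star_upper hE (δ := ε / ((k : ℝ) + 1 + ε)) (by positivity)
  refine ⟨2 * k + 1 + 1 + (N₀ + 1), fun W _ T hT hW S hS hc => ?_⟩
  -- the leaves at an inner node
  let Lf : inner T → Type := fun v => {u : W // u ∉ inner T ∧ T.Adj u v}
  have : ∀ v, Fintype (Lf v) := fun v => Fintype.ofFinite _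
  have : Fintype (inner T) := Fintype.ofFinite _
  let ℓ : inner T → ℕ := fun v => Fintype.card (Lf v)
  let ev : ∀ v : inner T, Lf v ≃ Fin (ℓ v) := fun v => Fintype.equivFin _
  let w : inner T → ℕ := fun v => if ℓ v = 0 then 0 else N₀ + ⌈((k : ℝ) + 1 + ε) * ℓ v⌉₊
  have hkε : (0 : ℝ) < (k : ℝ) + 1 + ε := by positivity
  have hw : ∀ v, (w v : ℝ) ≤ (N₀ : ℝ) + 1 + ((k : ℝ) + 1 + ε) * ℓ v := by
    intro v
    simp only [w]
    split_ifs with h
    · rw [h]
      have : (0 : ℝ) ≤ (N₀ : ℝ) := Nat.cast_nonneg _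
      push_cast
      linarith
    · push_cast
      have := (Nat.ceil_lt_add_one (a := ((k : ℝ) + 1 + ε) * ℓ v) (by positivity)).le
      linarith
  have hℓsum : ∑ v, ℓ v ≤ Fintype.card W := by
    have h1 : Fintype.card (Σ v : inner T, Lf v) = ∑ v, ℓ v := Fintype.card_sigma
    rw [← h1]
    refine Fintype.card_le_of_injective (fun x : (Σ v : inner T, Lf v) => (x.2.1 : W)) ?_
    rintro ⟨v, u, hu, huv⟩ ⟨v', u', hu', huv'⟩ h
    simp only at h
    subst h
    have : v = v' := Subtype.ext (leaf_unique hu huv huv')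
    subst this
    rfl
  have hcardI : Fintype.card (inner T) = (inner T).ncard := by
    rw [← Nat.card_eq_fintype_card]
    rfl
  have hsum : ∑ v, (2 * k + 1 + 1 + w v) ≤ S.card := by
    have h1 : ((∑ v, (2 * k + 1 + 1 + w v) : ℕ) : ℝ) ≤ S.card := by
      refine le_trans ?_ hc
      push_cast
      calc ∑ v, (2 * (k : ℝ) + 1 + 1 + w v) ≤
            ∑ v : inner T, (2 * (k : ℝ) + 1 + 1 + ((N₀ : ℝ) + 1) + ((k : ℝ) + 1 + ε) * ℓ v) :=
            sum_le_sum fun v _ => by have := hw v; linarith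
        _ = (Fintype.card (inner T)) * (2 * (k : ℝ) + 1 + 1 + ((N₀ : ℝ) + 1)) +
            ((k : ℝ) + 1 + ε) * ∑ v, (ℓ v : ℝ) := by
            rw [sum_add_distrib, sum_const, card_univ, nsmul_eq_mul, mul_sum]
        _ ≤ ((k : ℝ) + 1 + ε) * Fintype.card W + (2 * (k : ℝ) + 1 + 1 + ((N₀ : ℝ) + 1)) * (inner T).ncard := by
            rw [hcardI]
            have h2 : (∑ v, (ℓ v : ℝ)) ≤ Fintype.card W := by exact_mod_cast hℓsum
            have h3 := mul_le_mul_of_nonneg_left h2 hkε.le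
            linarith
    exact_mod_cast h1
  obtain ⟨c, D, hD, hDc, hne, hpair⟩ := tree_slabs (d := 2 * k + 1) hE (by omega) (inner_tree hT hW) w (S := S) hS hsum
  have hDS : ∀ v, D v ⊆ S := fun v x hx => (hD v x hx).1
  -- the stars in the slabs
  have hstar : ∀ v : inner T, ∃ Q : Fin (ℓ v + 1) → Finset E, (∀ i i', i ≠ i' → Disjoint (Q i) (Q i')) ∧
      (∀ x, x ∈ D v ↔ ∃ i, x ∈ Q i) ∧ ∀ i i', i ≠ i' → (M (Q i) (Q i') ↔ i = 0 ∨ i' = 0) := by
    intro v
    by_cases h : ℓ v = 0
    · have hD0 : D v = ∅ := by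
        rw [← card_eq_zero, hDc v]
        simp only [w, if_pos h]
      have hsub : ∀ i i' : Fin (ℓ v + 1), i = i' := by
        intro i i'
        apply Fin.ext
        have h1 := i.2
        have h2 := i'.2
        omega
      refine ⟨fun _ => ∅, fun i i' hii => absurd (hsub i i') hii, fun x => ?_, fun i i' hii => absurd (hsub i i') hii⟩
      rw [hD0]
      simp
    · have hwv : w v = N₀ + ⌈((k : ℝ) + 1 + ε) * ℓ v⌉₊ := by simp only [w, if_neg h]
      obtain ⟨Q, -, q2, q3, q4⟩ := hN₀ (D v) (fun A hA => hS A (hA.trans (hDS v))) (by rw [hDc v, hwv]; omega) (ℓ v) (by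
        rw [hDc v, hwv]
        have h5 : 1 - ε / ((k : ℝ) + 1 + ε) = ((k : ℝ) + 1) / ((k : ℝ) + 1 + ε) := by
          field_simp
          ring
        rw [h5, div_mul_eq_mul_div, le_div_iff₀ hkε]
        have h6 := Nat.le_ceil (((k : ℝ) + 1 + ε) * ℓ v)
        have h7 : (0 : ℝ) ≤ (N₀ : ℝ) := Nat.cast_nonneg _
        have h8 : (0 : ℝ) ≤ (k : ℝ) + 1 := by positivity
        push_cast
        nlinarith)
      exact ⟨Q, q2, q3, q4⟩
  choose Q hQ1 hQ2 hQ3 using hstar
  -- the inner neighbour of a leaf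
  have hp : ∀ u : W, ∃ v : inner T, u ∉ inner T → T.Adj u v := by
    intro u
    by_cases hu : u ∈ inner T
    · exact ⟨⟨u, hu⟩, fun h => absurd hu h⟩
    · obtain ⟨p, hp⟩ := exists_nbr hT.connected (by omega) u
      exact ⟨⟨p, nbr_inner hT.connected hW hu hp⟩, fun _ => hp⟩
  choose p hp using hp
  -- the parts
  let Pi : inner T → Finset E := fun v => (S.filter (fun x => c x = v ∧ x ∉ D v)) ∪ Q v 0
  let Pl : (v : inner T) → Lf v → Finset E := fun v u => Q v (ev v u).succ
  let P : W → Finset E := fun u => if h : u ∈ inner T then Pi ⟨u, h⟩ else Pl (p u) ⟨u, h, hp u h⟩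
  have hPi : ∀ v : inner T, P v = Pi v := fun v => by
    simp only [P, dif_pos v.2]
  have hPl : ∀ u : W, ∀ h : u ∉ inner T, P u = Pl (p u) ⟨u, h, hp u h⟩ := fun u h => by
    simp only [P, dif_neg h]
  have hPl' : ∀ (v : inner T) (u : Lf v), P u.1 = Pl v u := by
    rintro v ⟨u, hu, huv⟩
    rw [hPl u hu]
    have hpv : p u = v := Subtype.ext (leaf_unique hu (hp u hu) huv)
    subst hpv
    rfl
  have hQD : ∀ v i, Q v i ⊆ D v := fun v i x hx => (hQ2 v x).2 ⟨i, hx⟩
  have hcls : ∀ v : inner T, ((S.filter (fun x => c x = v) : Finset E) : Set E) = {x | x ∈ S ∧ c x = v} := by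
    intro v
    ext x
    simp
  have hcore : ∀ v : inner T, ((S.filter (fun x => c x = v ∧ x ∉ D v) : Finset E) : Set E) =
      {x | x ∈ S ∧ c x = v ∧ x ∉ D v} := by
    intro v
    ext x
    simp
  have hDcls : ∀ v, D v ⊆ S.filter (fun x => c x = v) := fun v x hx => mem_filter.2 (hD v x hx)
  have hPicls : ∀ v, Pi v ⊆ S.filter (fun x => c x = v) := by
    intro v x hx
    rcases mem_union.1 hx with hx | hx
    · rw [mem_filter] at hx ⊢
      exact ⟨hx.1, hx.2.1⟩
    · exact hDcls v (hQD v 0 hx)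
  have hPlD : ∀ v u, Pl v u ⊆ D v := fun v u => hQD v _
  -- the relations of the classes
  have r1 : ∀ u v : inner T, u ≠ v → T.Adj u v → M (Pi u) (Pi v) := by
    intro u v huv hadj
    have h1 := (hpair u v huv).1 hadj
    rw [← hcore u, ← hcore v] at h1
    exact M.mono h1 subset_union_left subset_union_left
  have r2 : ∀ u v : inner T, u ≠ v → ¬ T.Adj u v → ∀ A B : Finset E, A ⊆ S.filter (fun x => c x = u) →
      B ⊆ S.filter (fun x => c x = v) → ¬ M A B := by
    intro u v huv hadj A B hA hB hm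
    have h1 := (hpair u v huv).2.1 hadj
    rw [← hcls u, ← hcls v] at h1
    exact h1 (M.mono hm hA hB)
  have r3 : ∀ u v : inner T, u ≠ v → ∀ A B : Finset E, A ⊆ S.filter (fun x => c x = u) →
      B ⊆ D v → ¬ M A B := by
    intro u v huv A B hA hB hm
    have h1 := (hpair u v huv).2.2
    rw [← hcls u] at h1
    exact h1 (M.mono hm hA hB)
  -- every node is inner or a leaf
  have hcase : ∀ u : W, (∃ v : inner T, u = v) ∨ ∃ (v : inner T) (x : Lf v), u = x.1 := by
    intro u
    by_cases h : u ∈ inner T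
    · exact Or.inl ⟨⟨u, h⟩, rfl⟩
    · exact Or.inr ⟨p u, ⟨u, h, hp u h⟩, rfl⟩
  -- inner against leaf
  have hil : ∀ (a v : inner T) (x : Lf v), M (Pi a) (Pl v x) ↔ T.Adj a x.1 := by
    intro a v x
    by_cases hav : a = v
    · subst hav
      refine ⟨fun _ => x.2.2.symm, fun _ => ?_⟩
      exact M.mono ((hQ3 a 0 (ev a x).succ (Fin.succ_ne_zero _).symm).2 (Or.inl rfl)) subset_union_right Subset.rfl
    · refine ⟨fun h => absurd h (r3 a v hav _ _ (hPicls a) (hPlD v x)), fun h => ?_⟩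
      exact absurd (Subtype.ext (leaf_unique x.2.1 h.symm x.2.2)) hav
  refine ⟨P, ?_, ?_, ?_, ?_⟩
  · intro u
    rcases hcase u with ⟨v, rfl⟩ | ⟨v, x, rfl⟩
    · rw [hPi]
      obtain ⟨x, hx1, hx2, hx3⟩ := hne v
      exact ⟨x, mem_union_left _ (mem_filter.2 ⟨hx1, hx2, hx3⟩)⟩
    · rw [hPl']
      exact Pool.Agent.Helper71.TVS.Meet.left (M.symm ((hQ3 v 0 (ev v x).succ (Fin.succ_ne_zero _).symm).2 (Or.inl rfl)))
  · intro u u' huu
    rcases hcase u with ⟨v, rfl⟩ | ⟨v, x, rfl⟩
    · rcases hcase u' with ⟨v', rfl⟩ | ⟨v', x', rfl⟩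
      · rw [hPi, hPi, disjoint_left]
        intro y hy hy'
        have h1 := (mem_filter.1 (hPicls v hy)).2
        have h2 := (mem_filter.1 (hPicls v' hy')).2
        exact huu (by rw [← h1, h2])
      · rw [hPi, hPl', disjoint_left]
        intro y hy hy'
        have h1 := (mem_filter.1 (hPicls v hy)).2
        have h2 := (hD v' y (hPlD v' x' hy')).2
        have h3 : v = v' := by rw [← h1, h2]
        subst h3
        rcases mem_union.1 hy with hy | hy
        · exact (mem_filter.1 hy).2.2 (hPlD v x' hy')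
        · exact disjoint_left.1 (hQ1 v 0 (ev v x').succ (Fin.succ_ne_zero _).symm) hy hy'
    · rcases hcase u' with ⟨v', rfl⟩ | ⟨v', x', rfl⟩
      · rw [hPi, hPl', disjoint_left]
        intro y hy' hy
        have h1 := (mem_filter.1 (hPicls v' hy)).2
        have h2 := (hD v y (hPlD v x hy')).2
        have h3 : v' = v := by rw [← h1, h2]
        subst h3
        rcases mem_union.1 hy with hy | hy
        · exact (mem_filter.1 hy).2.2 (hPlD v' x hy')
        · exact disjoint_left.1 (hQ1 v' 0 (ev v' x).succ (Fin.succ_ne_zero _).symm) hy hy'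
      · rw [hPl', hPl', disjoint_left]
        intro y hy hy'
        have h1 := (hD v y (hPlD v x hy)).2
        have h2 := (hD v' y (hPlD v' x' hy')).2
        have h3 : v = v' := by rw [← h1, h2]
        subst h3
        refine disjoint_left.1 (hQ1 v (ev v x).succ (ev v x').succ fun h => huu ?_) hy hy'
        rw [(ev v).injective (Fin.succ_injective _ h)]
  · intro y
    constructor
    · intro hy
      by_cases h : y ∈ D (c y)
      · obtain ⟨i, hi⟩ := (hQ2 (c y) y).1 h
        rcases Fin.eq_zero_or_eq_succ i with rfl | ⟨j, rfl⟩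
        · refine ⟨c y, ?_⟩
          rw [hPi]
          exact mem_union_right _ hi
        · refine ⟨((ev (c y)).symm j).1, ?_⟩
          rw [hPl']
          show y ∈ Q (c y) (ev (c y) ((ev (c y)).symm j)).succ
          rw [Equiv.apply_symm_apply]
          exact hi
      · refine ⟨c y, ?_⟩
        rw [hPi]
        exact mem_union_left _ (mem_filter.2 ⟨hy, rfl, h⟩)
    · rintro ⟨u, hu⟩
      rcases hcase u with ⟨v, rfl⟩ | ⟨v, x, rfl⟩
      · rw [hPi] at hu
        exact (mem_filter.1 (hPicls v hu)).1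
      · rw [hPl'] at hu
        exact hDS v (hPlD v x hu)
  · intro u u' huu
    rcases hcase u with ⟨v, rfl⟩ | ⟨v, x, rfl⟩
    · rcases hcase u' with ⟨v', rfl⟩ | ⟨v', x', rfl⟩
      · rw [hPi, hPi]
        have hvv : v ≠ v' := fun h => huu (by rw [h])
        refine ⟨fun h => ?_, r1 v v' hvv⟩
        by_contra hcon
        exact r2 v v' hvv hcon _ _ (hPicls v) (hPicls v') h
      · rw [hPi, hPl']
        exact hil v v' x'
    · rcases hcase u' with ⟨v', rfl⟩ | ⟨v', x', rfl⟩
      · rw [hPi, hPl', T.adj_comm, ← hil v' v x]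
        exact ⟨M.symm, M.symm⟩
      · rw [hPl', hPl']
        refine ⟨fun h => ?_, fun h => absurd (nbr_inner hT.connected hW x.2.1 h) x'.2.1⟩
        exfalso
        by_cases hvv : v = v'
        · subst hvv
          have hne' : (ev v x).succ ≠ (ev v x').succ := fun h => huu (by
            rw [(ev v).injective (Fin.succ_injective _ h)])
          have h1 := (hQ3 v _ _ hne').1 h
          rcases h1 with h1 | h1
          · exact Fin.succ_ne_zero _ h1
          · exact Fin.succ_ne_zero _ h1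
        · exact r3 v v' hvv _ _ ((hPlD v x).trans (hDcls v)) (hPlD v' x') h

end Pool.Agent.Helper71.TVW
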