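import Pool.Agent.Helper33.TVT.Main

/-!
# Placing a rooted forest with a slab of prescribed size for every vertex (MP_92efc2)

After `Helper33/TVT/Place.lean`: the part of the vertex `v` contains a set `D v` of exactly `w v` points whose
hull meets no other part, and without which all required intersections remain.
-/

set_option autoImplicit false

namespace Pool.Agent.Helper71.TVW

open Finset Pool.Agent.Helper33.TVT

variable {E : Type*} [AddCommGroup E] [Module ℝ E] {V : Type*}

/-- number of points needed -/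
def dem (d : ℕ) (w : V → ℕ) : BT V → ℕ
  | BT.nil => 0
  | BT.node v l r => dem d w l + dem d w r + (d + 1 + w v)

theorem nr_le_dem (d : ℕ) (w : V → ℕ) (t : BT V) : (d + 1) * t.nr ≤ dem d w t := by
  induction t with
  | nil => simp [BT.nr]
  | node v l r _ ihr =>
    simp only [BT.nr, dem, mul_add, mul_one]
    omega

/-- the relations between the parts of `u` and `v` -/
def PairOK (c : E → Option V) (D : V → Finset E) (S : Finset E) (p : Prop) (u v : V) : Prop :=
  (p → Meet ((cls c S (some u) : Set E) \ (D u : Set E)) ((cls c S (some v) : Set E) \ (D v : Set E))) ∧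
  (¬ p → ¬ Meet (cls c S (some u) : Set E) (cls c S (some v) : Set E)) ∧
  ¬ Meet (cls c S (some u) : Set E) (D v : Set E)

/-- the inductive statement for a forest: near points `N`, far points `F`, anchor `q` -/
def Place (f g : E →ₗ[ℝ] ℝ) (d : ℕ) (w : V → ℕ) (t : BT V) : Prop :=
  ∀ (N F S : Finset E) (q : E), (∀ x, x ∈ S ↔ x ∈ N ∨ x ∈ F) → Gen f g S → (∀ x ∈ N, ∀ y ∈ F, f x < f y) →
    N.card = (d + 1) * t.nr → dem d w t ≤ F.card + N.card → (t = BT.nil → F = ∅) →
    ∃ (c : E → Option V) (D : V → Finset E),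
      (∀ x ∈ S, ∀ v, c x = some v → v ∈ t.verts) ∧
      (∀ x ∈ F, c x ≠ none) ∧
      (∀ v ∈ t.verts, D v ⊆ F ∧ D v ⊆ cls c S (some v) ∧ (D v).card = w v) ∧
      (∀ v ∈ t.verts, v ∉ t.roots → ∀ x ∈ N, c x ≠ some v) ∧
      (∀ v ∈ t.roots, Meet (insert q (cls c N none : Set E)) ((cls c S (some v) : Set E) \ (D v : Set E))) ∧
      (∀ u ∈ t.verts, ∀ v ∈ t.verts, u ≠ v → PairOK c D S (t.rel u v ∨ t.rel v u) u v)

/-- the statement for a root whose part contains `B` and whose children are the roots of `t` -/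
def Attach (f g : E →ₗ[ℝ] ℝ) (d : ℕ) (w : V → ℕ) (t : BT V) : Prop :=
  ∀ (B G : Finset E), B.Nonempty → Gen f g G → (∀ x ∈ B, ∀ y ∈ G, f x < f y) → dem d w t ≤ G.card →
    ∃ (c : E → Option V) (D : V → Finset E),
      (∀ x ∈ G, ∀ v, c x = some v → v ∈ t.verts) ∧
      (∀ v ∈ t.verts, D v ⊆ cls c G (some v) ∧ (D v).card = w v) ∧
      (∀ v ∈ t.roots, Meet ((B : Set E) ∪ (cls c G none : Set E)) ((cls c G (some v) : Set E) \ (D v : Set E))) ∧
      (∀ v ∈ t.verts, v ∉ t.roots → ∀ x ∈ cls c G none, ∀ y ∈ cls c G (some v), f x < f y) ∧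
      (∀ v ∈ t.verts, ∀ x ∈ cls c G none, ∀ y ∈ D v, f x < f y) ∧
      (∀ u ∈ t.verts, ∀ v ∈ t.verts, u ≠ v → PairOK c D G (t.rel u v ∨ t.rel v u) u v)

theorem attach_of_place {f g : E →ₗ[ℝ] ℝ} {d : ℕ} {w : V → ℕ} {t : BT V} (h : Place f g d w t) :
    Attach f g d w t := by
  classical
  intro B G hB hG hlt hcard
  by_cases ht : t = BT.nil
  · subst ht
    refine ⟨fun _ => none, fun _ => ∅, fun x _ v hv => by simp at hv, ?_, ?_, ?_, ?_, ?_⟩
    · intro v hv; simp [BT.verts] at hv
    · intro v hv; simp [BT.roots] at hv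
    · intro v hv; simp [BT.verts] at hv
    · intro v hv; simp [BT.verts] at hv
    · intro u hu; simp [BT.verts] at hu
  have hnr : (d + 1) * t.nr ≤ G.card := le_trans (nr_le_dem d w t) hcard
  obtain ⟨N, F, hdis, hmem, hNc, hNF⟩ := exists_split G f hG.inj _ hnr
  have hGc : F.card + N.card = G.card := by
    have : G = N ∪ F := by
      ext x
      rw [hmem, mem_union]
    rw [this, card_union_of_disjoint hdis, add_comm]
  obtain ⟨q, hq⟩ := hB
  obtain ⟨c, D, h1, h2, h3, h4, h5, h6⟩ := h N F G q hmem hG hNF hNc (by rw [hGc]; exact hcard) (fun h => absurd h ht)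
  have hcn : cls c G none = cls c N none := by
    ext x
    rw [mem_cls, mem_cls, hmem]
    constructor
    · rintro ⟨hx | hx, hc⟩
      · exact ⟨hx, hc⟩
      · exact absurd hc (h2 x hx)
    · rintro ⟨hx, hc⟩
      exact ⟨Or.inl hx, hc⟩
  refine ⟨c, D, h1, fun v hv => (h3 v hv).2, ?_, ?_, ?_, h6⟩
  · intro v hr
    refine (h5 v hr).mono ?_ subset_rfl
    rw [hcn]
    intro x hx
    rcases hx with rfl | hx
    · exact Or.inl hq
    · exact Or.inr hx
  · intro v hv hr x hx y hy
    rw [hcn, mem_cls] at hx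
    rw [mem_cls, hmem] at hy
    rcases hy.1 with hy1 | hy1
    · exact absurd hy.2 (h4 v hv hr y hy1)
    · exact hNF x hx.1 y hy1
  · intro v hv x hx y hy
    rw [hcn, mem_cls] at hx
    exact hNF x hx.1 y ((h3 v hv).1 hy)

theorem place_nil (f g : E →ₗ[ℝ] ℝ) (d : ℕ) (w : V → ℕ) : Place f g d w (BT.nil : BT V) := by
  intro N F S q hS hG hlt hN hF hnil
  have hF0 := hnil rfl
  have hN0 : N = ∅ := by
    rw [← card_eq_zero, hN]; simp [BT.nr]
  subst hF0
  subst hN0
  refine ⟨fun _ => none, fun _ => ∅, fun x _ v hv => by simp at hv, fun x hx => absurd hx (notMem_empty x), ?_, ?_, ?_, ?_⟩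
  · intro v hv; simp [BT.verts] at hv
  · intro v hv; simp [BT.verts] at hv
  · intro v hv; simp [BT.roots] at hv
  · intro u hu; simp [BT.verts] at hu

/-- one tree -/
theorem place_tree [FiniteDimensional ℝ E] {f g : E →ₗ[ℝ] ℝ} {d : ℕ} (hd : Module.finrank ℝ E = d) {w : V → ℕ}
    {v : V} {l : BT V} (hv : v ∉ l.verts) (hl : Attach f g d w l) : Place f g d w (BT.node v l BT.nil) := by
  classical
  intro N F S q hS hG hlt hN hF _
  have hN' : N.card = d + 1 := by rw [hN]; simp [BT.nr]
  obtain ⟨B, hBN, hB, hmeet⟩ := radon_anchor N q (by rw [hd, hN'])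
  have hFS : F ⊆ S := fun x hx => (hS x).2 (Or.inr hx)
  have hNS : N ⊆ S := fun x hx => (hS x).2 (Or.inl hx)
  have hdem : dem d w l + w v ≤ F.card := by
    simp only [dem] at hF
    rw [hN'] at hF
    omega
  obtain ⟨D₀, F', hDF, hFmem, hD₀, hDlt⟩ := exists_split F f (hG.mono hFS).inj (w v) (by omega)
  have hF'F : F' ⊆ F := fun x hx => (hFmem x).2 (Or.inr hx)
  have hDF' : D₀ ⊆ F := fun x hx => (hFmem x).2 (Or.inl hx)
  have hFc : F'.card = F.card - w v := by
    have : F = D₀ ∪ F' := by
      ext x
      rw [hFmem, mem_union]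
    have h1 : F.card = D₀.card + F'.card := by rw [this, card_union_of_disjoint hDF]
    omega
  obtain ⟨c, D, h1, h2, h3, h3', h3'', h4⟩ := hl B F' hB (hG.mono (hF'F.trans hFS))
    (fun x hx y hy => hlt x (hBN hx) y (hF'F hy)) (by omega)
  have hdis : ∀ x, x ∈ N → x ∉ F := fun x hx hx' => lt_irrefl _ (hlt x hx x hx')
  let c' : E → Option V := fun x => if x ∈ N then (if x ∈ B then some v else none) else
    if x ∈ D₀ then some v else some ((c x).getD v)
  let D' : V → Finset E := fun u => if u = v then D₀ else D u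
  have cB : ∀ x ∈ B, c' x = some v := fun x hx => by simp only [c', if_pos (hBN hx), if_pos hx]
  have cA : ∀ x ∈ N, x ∉ B → c' x = none := fun x hx hx' => by simp only [c', if_pos hx, if_neg hx']
  have cD : ∀ x ∈ D₀, c' x = some v := fun x hx => by
    simp only [c', if_neg (fun h => hdis x h (hDF' hx)), if_pos hx]
  have cF : ∀ x ∈ F', c' x = some ((c x).getD v) := fun x hx => by
    simp only [c', if_neg (fun h => hdis x h (hF'F hx)), if_neg (fun h => disjoint_left.1 hDF h hx)]
  have Dv : D' v = D₀ := by simp only [D', if_pos]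
  have Du : ∀ u ∈ l.verts, D' u = D u := fun u hu => by
    simp only [D', if_neg (fun h : u = v => hv (h ▸ hu))]
  have clsv : cls c' S (some v) = (B ∪ D₀) ∪ cls c F' none := by
    ext x
    rw [mem_cls, mem_union, mem_union, mem_cls, hS]
    constructor
    · rintro ⟨hx | hx, hc⟩
      · by_cases hxB : x ∈ B
        · exact Or.inl (Or.inl hxB)
        · rw [cA x hx hxB] at hc
          exact absurd hc (by simp)
      · rcases (hFmem x).1 hx with hx | hx
        · exact Or.inl (Or.inr hx)
        · rw [cF x hx, Option.some_inj] at hc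
          refine Or.inr ⟨hx, ?_⟩
          rcases hcx : c x with _ | u
          · rfl
          · rw [hcx, Option.getD_some] at hc
            exact absurd (h1 x hx u hcx) (by rw [hc]; exact hv)
    · rintro ((hx | hx) | ⟨hx, hc⟩)
      · exact ⟨Or.inl (hBN hx), cB x hx⟩
      · exact ⟨Or.inr (hDF' hx), cD x hx⟩
      · refine ⟨Or.inr (hF'F hx), ?_⟩
        rw [cF x hx, hc, Option.getD_none]
  have clsvD : ((cls c' S (some v) : Set E) \ (D' v : Set E)) = (B : Set E) ∪ (cls c F' none : Set E) := by
    rw [clsv, Dv]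
    ext x
    simp only [coe_union, Set.mem_sdiff, Set.mem_union, mem_coe]
    constructor
    · rintro ⟨(hx | hx) | hx, hx'⟩
      · exact Or.inl hx
      · exact absurd hx hx'
      · exact Or.inr hx
    · rintro (hx | hx)
      · exact ⟨Or.inl (Or.inl hx), fun h => hdis x (hBN hx) (hDF' h)⟩
      · exact ⟨Or.inr hx, fun h => disjoint_left.1 hDF h (mem_cls.1 hx).1⟩
  have clsu : ∀ u ∈ l.verts, cls c' S (some u) = cls c F' (some u) := by
    intro u hu
    have huv : u ≠ v := fun h => hv (h ▸ hu)
    ext x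
    rw [mem_cls, mem_cls, hS]
    constructor
    · rintro ⟨hx | hx, hc⟩
      · by_cases hxB : x ∈ B
        · rw [cB x hxB, Option.some_inj] at hc
          exact absurd hc.symm huv
        · rw [cA x hx hxB] at hc
          exact absurd hc (by simp)
      · rcases (hFmem x).1 hx with hx | hx
        · rw [cD x hx, Option.some_inj] at hc
          exact absurd hc.symm huv
        · rw [cF x hx, Option.some_inj] at hc
          refine ⟨hx, ?_⟩
          rcases hcx : c x with _ | w
          · rw [hcx, Option.getD_none] at hc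
            exact absurd hc.symm huv
          · rw [hcx, Option.getD_some] at hc
            rw [hc]
    · rintro ⟨hx, hc⟩
      refine ⟨Or.inr (hF'F hx), ?_⟩
      rw [cF x hx, hc, Option.getD_some]
  have clsn : (cls c' N none : Set E) = {x | x ∈ N ∧ x ∉ B} := by
    ext x
    rw [mem_coe, mem_cls, Set.mem_ofPred_eq]
    constructor
    · rintro ⟨hx, hc⟩
      refine ⟨hx, fun hxB => ?_⟩
      rw [cB x hxB] at hc
      exact absurd hc (by simp)
    · rintro ⟨hx, hxB⟩
      exact ⟨hx, cA x hx hxB⟩
  have hrel : ∀ a b, (BT.node v l BT.nil).rel a b ↔ (a = v ∧ b ∈ l.roots) ∨ l.rel a b := by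
    intro a b
    simp only [BT.rel, or_false]
  -- levels
  have lev : ∀ X : Finset E, X ⊆ F' → (∀ x ∈ cls c F' none, ∀ y ∈ X, f x < f y) →
      ¬ Meet (cls c' S (some v) : Set E) (X : Set E) := by
    intro X hX hlow
    refine not_meet_of_lt f fun x hx y hy => ?_
    rw [clsv, mem_union, mem_union] at hx
    rcases hx with (hx | hx) | hx
    · exact hlt x (hBN hx) y (hF'F (hX hy))
    · exact hDlt x hx y (hX hy)
    · exact hlow x hx y hy
  refine ⟨c', D', ?_, ?_, ?_, ?_, ?_, ?_⟩
  · intro x hx u hu
    simp only [BT.verts, List.append_nil, List.mem_cons]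
    rcases (hS x).1 hx with hx | hx
    · by_cases hxB : x ∈ B
      · rw [cB x hxB, Option.some_inj] at hu
        exact Or.inl hu.symm
      · rw [cA x hx hxB] at hu
        exact absurd hu (by simp)
    · rcases (hFmem x).1 hx with hx | hx
      · rw [cD x hx, Option.some_inj] at hu
        exact Or.inl hu.symm
      · rw [cF x hx, Option.some_inj] at hu
        rcases hcx : c x with _ | w
        · rw [hcx, Option.getD_none] at hu
          exact Or.inl hu.symm
        · rw [hcx, Option.getD_some] at hu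
          exact Or.inr (hu ▸ h1 x hx w hcx)
  · intro x hx
    rcases (hFmem x).1 hx with hx | hx
    · rw [cD x hx]
      simp
    · rw [cF x hx]
      simp
  · intro u hu
    simp only [BT.verts, List.append_nil, List.mem_cons] at hu
    rcases hu with rfl | hu
    · rw [clsv, Dv]
      exact ⟨hDF', fun x hx => mem_union_left _ (mem_union_right _ hx), hD₀⟩
    · rw [clsu u hu, Du u hu]
      refine ⟨fun x hx => hF'F (mem_cls.1 ((h2 u hu).1 hx)).1, (h2 u hu).1, (h2 u hu).2⟩
  · intro u hu hr x hx hc
    simp only [BT.verts, List.append_nil, List.mem_cons] at hu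
    simp only [BT.roots, List.mem_cons, List.not_mem_nil, or_false] at hr
    by_cases hxB : x ∈ B
    · rw [cB x hxB, Option.some_inj] at hc
      exact hr hc.symm
    · rw [cA x hx hxB] at hc
      exact absurd hc (by simp)
  · intro u hu
    simp only [BT.roots, List.mem_cons, List.not_mem_nil, or_false] at hu
    subst hu
    rw [clsn, clsvD]
    exact hmeet.mono subset_rfl Set.subset_union_left
  · -- `v` against the vertices of `l`
    have hvu1 : ∀ u ∈ l.verts, (BT.node v l BT.nil).rel v u ∨ (BT.node v l BT.nil).rel u v →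
        u ∈ l.roots := by
      intro u hu h
      have huv : u ≠ v := fun h => hv (h ▸ hu)
      rw [hrel, hrel] at h
      rcases h with (⟨_, h⟩ | h) | (⟨h, _⟩ | h)
      · exact h
      · exact absurd (l.rel_mem h).1 hv
      · exact absurd h huv
      · exact absurd (l.rel_mem h).2 hv
    have hvu2 : ∀ u ∈ l.verts, u ∈ l.roots →
        (BT.node v l BT.nil).rel v u ∨ (BT.node v l BT.nil).rel u v := by
      intro u hu h
      rw [hrel]
      exact Or.inl (Or.inl ⟨rfl, h⟩)
    have hm1 : ∀ u ∈ l.roots, Meet ((cls c' S (some v) : Set E) \ (D' v : Set E))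
        ((cls c' S (some u) : Set E) \ (D' u : Set E)) := by
      intro u hu
      rw [clsvD, clsu u (l.roots_subset u hu), Du u (l.roots_subset u hu)]
      exact h3 u hu
    have hm2 : ∀ u ∈ l.verts, u ∉ l.roots → ¬ Meet (cls c' S (some v) : Set E) (cls c' S (some u) : Set E) := by
      intro u hu hr
      rw [clsu u hu]
      exact lev _ (fun x hx => (mem_cls.1 hx).1) (h3' u hu hr)
    have hm3 : ∀ u ∈ l.verts, ¬ Meet (cls c' S (some v) : Set E) (D' u : Set E) := by
      intro u hu
      rw [Du u hu]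
      exact lev _ (fun x hx => (mem_cls.1 ((h2 u hu).1 hx)).1) (h3'' u hu)
    have hm4 : ∀ u ∈ l.verts, ¬ Meet (cls c' S (some u) : Set E) (D' v : Set E) := by
      intro u hu
      rw [meet_comm, clsu u hu, Dv]
      exact not_meet_of_lt f fun x hx y hy => hDlt x hx y (mem_cls.1 hy).1
    intro u hu w hw huw
    simp only [BT.verts, List.append_nil, List.mem_cons] at hu hw
    rcases hu with rfl | hu
    · rcases hw with rfl | hw
      · exact absurd rfl huw
      · exact ⟨fun h => hm1 w (hvu1 w hw h), fun h => hm2 w hw fun h' => h (hvu2 w hw h'), hm3 w hw⟩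
    · rcases hw with rfl | hw
      · exact ⟨fun h => (hm1 u (hvu1 u hu (Or.comm.1 h))).symm,
          fun h h'' => hm2 u hu (fun h' => h (Or.comm.1 (hvu2 u hu h'))) h''.symm, hm4 u hu⟩
      · have h5 := h4 u hu w hw huw
        have hu' : u ≠ v := fun h => hv (h ▸ hu)
        have hw' : w ≠ v := fun h => hv (h ▸ hw)
        unfold PairOK at h5 ⊢
        rw [clsu u hu, clsu w hw, Du u hu, Du w hw, hrel, hrel]
        simpa only [hu', hw', false_and, false_or] using h5

end Pool.Agent.Helper71.TVW
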