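import Pool.Agent.Helper71.TVW.Node

/-!
# Trees with slabs (MP_92efc2)
-/

set_option autoImplicit false

namespace Pool.Agent.Helper71.TVW

open Finset Pool.Agent.Helper33.TVT

variable {E : Type*} [AddCommGroup E] [Module ℝ E]

theorem dem_eq {V : Type*} (d : ℕ) (w : V → ℕ) (t : BT V) :
    dem d w t = (t.verts.map (fun v => d + 1 + w v)).sum := by
  induction t with
  | nil => simp [dem, BT.verts]
  | node v l r ihl ihr =>
    simp only [dem, BT.verts, List.map_cons, List.map_append, List.sum_cons, List.sum_append, ihl, ihr]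
    ring

/-- **every tree**, with slabs -/
theorem tree_slabs [FiniteDimensional ℝ E] {d : ℕ} (hd : Module.finrank ℝ E = d) (h2 : 2 ≤ d) {V : Type} [Fintype V]
    {G : SimpleGraph V} (hG : G.IsTree) (w : V → ℕ) {S : Finset E} (hS : GenPos d S)
    (hc : ∑ v, (d + 1 + w v) ≤ S.card) :
    ∃ (c : E → V) (D : V → Finset E), (∀ v, ∀ x ∈ D v, x ∈ S ∧ c x = v) ∧ (∀ v, (D v).card = w v) ∧
      (∀ v, ∃ x ∈ S, c x = v ∧ x ∉ D v) ∧ ∀ u v, u ≠ v →
      (G.Adj u v → Meet {x | x ∈ S ∧ c x = u ∧ x ∉ D u} {x | x ∈ S ∧ c x = v ∧ x ∉ D v}) ∧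
      (¬ G.Adj u v → ¬ Meet {x | x ∈ S ∧ c x = u} {x | x ∈ S ∧ c x = v}) ∧
      ¬ Meet {x | x ∈ S ∧ c x = u} (D v : Set E) := by
  classical
  obtain ⟨v₀, l, hnd, hall, hadj⟩ := exists_bt _ V G hG rfl
  have hdem : ∑ v, (d + 1 + w v) = dem d w l + (d + 1 + w v₀) := by
    have e1 : (BT.node v₀ l BT.nil).verts.toFinset = univ := by
      ext v
      simp only [List.mem_toFinset, hall v, mem_univ]
    rw [← e1, List.sum_toFinset _ hnd, ← dem_eq]
    simp only [dem]
    omega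
  rw [hdem] at hc
  have hnd' := hnd
  simp only [BT.verts, List.append_nil, List.nodup_cons] at hnd'
  obtain ⟨f, g, hfg⟩ := exists_gen hd h2 hS (by omega)
  obtain ⟨N, F₀, hdis₀, hmem₀, hN, hNF₀⟩ := exists_split S f hfg.inj 1 (by omega)
  have hF₀S : F₀ ⊆ S := fun x hx => (hmem₀ x).2 (Or.inr hx)
  have hF₀c : S.card = 1 + F₀.card := by
    have : S = N ∪ F₀ := by
      ext x
      rw [hmem₀, mem_union]
    rw [this, card_union_of_disjoint hdis₀, hN]
  obtain ⟨D₀, F, hdis, hmem, hD₀, hDF⟩ := exists_split F₀ f (hfg.mono hF₀S).inj (w v₀) (by omega)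
  have hFF₀ : F ⊆ F₀ := fun x hx => (hmem x).2 (Or.inr hx)
  have hDF₀ : D₀ ⊆ F₀ := fun x hx => (hmem x).2 (Or.inl hx)
  have hFc : F₀.card = w v₀ + F.card := by
    have : F₀ = D₀ ∪ F := by
      ext x
      rw [hmem, mem_union]
    rw [this, card_union_of_disjoint hdis, hD₀]
  have hNne : N.Nonempty := card_pos.1 (by omega)
  have hatt := attach_of_place (place f g hd w l hnd'.2)
  obtain ⟨c, D, h1, h2', h3, h3', h3'', h5⟩ := hatt N F hNne (hfg.mono (hFF₀.trans hF₀S))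
    (fun x hx y hy => hNF₀ x hx y (hFF₀ hy)) (by omega)
  have hSmem : ∀ x, x ∈ S ↔ x ∈ N ∨ x ∈ D₀ ∨ x ∈ F := by
    intro x
    rw [hmem₀, hmem]
  have nND : ∀ x, x ∈ N → x ∉ D₀ := fun x hx h => disjoint_left.1 hdis₀ hx (hDF₀ h)
  have nNF : ∀ x, x ∈ N → x ∉ F := fun x hx h => disjoint_left.1 hdis₀ hx (hFF₀ h)
  have nDF : ∀ x, x ∈ D₀ → x ∉ F := fun x hx h => disjoint_left.1 hdis hx h
  let c' : E → V := fun x => if x ∈ F then (c x).getD v₀ else v₀
  let D' : V → Finset E := fun u => if u = v₀ then D₀ else D u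
  have cN : ∀ x ∈ N, c' x = v₀ := fun x hx => by simp only [c', if_neg (nNF x hx)]
  have cD : ∀ x ∈ D₀, c' x = v₀ := fun x hx => by simp only [c', if_neg (nDF x hx)]
  have cF : ∀ x ∈ F, c' x = (c x).getD v₀ := fun x hx => by simp only [c', if_pos hx]
  have Dv : D' v₀ = D₀ := by simp only [D', if_pos]
  have Du : ∀ u ∈ l.verts, D' u = D u := fun u hu => by
    simp only [D', if_neg (fun h : u = v₀ => hnd'.1 (h ▸ hu))]
  have mem₀ : ∀ x, (x ∈ S ∧ c' x = v₀) ↔ x ∈ N ∨ x ∈ D₀ ∨ x ∈ cls c F none := by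
    intro x
    rw [hSmem, mem_cls]
    constructor
    · rintro ⟨hx | hx | hx, hc⟩
      · exact Or.inl hx
      · exact Or.inr (Or.inl hx)
      · rw [cF x hx] at hc
        rcases hcx : c x with _ | u
        · exact Or.inr (Or.inr ⟨hx, rfl⟩)
        · rw [hcx, Option.getD_some] at hc
          exact absurd (h1 x hx u hcx) (hc ▸ hnd'.1)
    · rintro (hx | hx | ⟨hx, hc⟩)
      · exact ⟨Or.inl hx, cN x hx⟩
      · exact ⟨Or.inr (Or.inl hx), cD x hx⟩
      · exact ⟨Or.inr (Or.inr hx), by rw [cF x hx, hc, Option.getD_none]⟩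
  have mem₁ : ∀ u ∈ l.verts, ∀ x, (x ∈ S ∧ c' x = u) ↔ x ∈ cls c F (some u) := by
    intro u hu x
    have hu₀ : u ≠ v₀ := fun h => hnd'.1 (h ▸ hu)
    rw [hSmem, mem_cls]
    constructor
    · rintro ⟨hx | hx | hx, hc⟩
      · rw [cN x hx] at hc
        exact absurd hc.symm hu₀
      · rw [cD x hx] at hc
        exact absurd hc.symm hu₀
      · rw [cF x hx] at hc
        rcases hcx : c x with _ | w
        · rw [hcx, Option.getD_none] at hc
          exact absurd hc.symm hu₀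
        · rw [hcx, Option.getD_some] at hc
          exact ⟨hx, by rw [hc]⟩
    · rintro ⟨hx, hc⟩
      exact ⟨Or.inr (Or.inr hx), by rw [cF x hx, hc, Option.getD_some]⟩
  have cls₀ : {x | x ∈ S ∧ c' x = v₀} = (((N ∪ D₀) ∪ cls c F none : Finset E) : Set E) := by
    ext x
    rw [Set.mem_ofPred_eq, mem₀, mem_coe, mem_union, mem_union, or_assoc]
  have cls₀' : {x | x ∈ S ∧ c' x = v₀ ∧ x ∉ D' v₀} = ((N : Set E) ∪ (cls c F none : Set E)) := by
    ext x
    rw [Set.mem_ofPred_eq, ← and_assoc, mem₀, Dv, Set.mem_union, mem_coe, mem_coe]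
    constructor
    · rintro ⟨hx | hx | hx, hx'⟩
      · exact Or.inl hx
      · exact absurd hx hx'
      · exact Or.inr hx
    · rintro (hx | hx)
      · exact ⟨Or.inl hx, nND x hx⟩
      · exact ⟨Or.inr (Or.inr hx), fun h => nDF x h (mem_cls.1 hx).1⟩
  have cls₁ : ∀ u ∈ l.verts, {x | x ∈ S ∧ c' x = u} = (cls c F (some u) : Set E) := by
    intro u hu
    ext x
    rw [Set.mem_ofPred_eq, mem_coe, mem₁ u hu]
  have cls₁' : ∀ u ∈ l.verts, {x | x ∈ S ∧ c' x = u ∧ x ∉ D' u} =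
      (cls c F (some u) : Set E) \ (D u : Set E) := by
    intro u hu
    ext x
    rw [Set.mem_ofPred_eq, ← and_assoc, mem₁ u hu, Du u hu, Set.mem_sdiff, mem_coe, mem_coe]
  have hall' : ∀ v, v = v₀ ∨ v ∈ l.verts := by
    intro v
    have := hall v
    simpa [BT.verts] using this
  have hrel : ∀ a b, (BT.node v₀ l BT.nil).rel a b ↔ (a = v₀ ∧ b ∈ l.roots) ∨ l.rel a b := by
    intro a b
    simp only [BT.rel, or_false]
  have hadj₀ : ∀ u ∈ l.verts, (G.Adj v₀ u ↔ u ∈ l.roots) := by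
    intro u hu
    have hu₀ : u ≠ v₀ := fun h => hnd'.1 (h ▸ hu)
    rw [hadj, hrel, hrel]
    constructor
    · rintro ((⟨_, h⟩ | h) | (⟨h, _⟩ | h))
      · exact h
      · exact absurd (l.rel_mem h).1 hnd'.1
      · exact absurd h hu₀
      · exact absurd (l.rel_mem h).2 hnd'.1
    · intro h
      exact Or.inl (Or.inl ⟨rfl, h⟩)
  have lev : ∀ X : Finset E, X ⊆ F → (∀ x ∈ cls c F none, ∀ y ∈ X, f x < f y) →
      ¬ Meet {x | x ∈ S ∧ c' x = v₀} (X : Set E) := by
    intro X hX hlow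
    rw [cls₀]
    refine not_meet_of_lt f fun x hx y hy => ?_
    rw [mem_union, mem_union] at hx
    rcases hx with (hx | hx) | hx
    · exact hNF₀ x hx y (hFF₀ (hX hy))
    · exact hDF x hx y (hX hy)
    · exact hlow x hx y hy
  have m1 : ∀ u ∈ l.verts, G.Adj v₀ u → Meet {x | x ∈ S ∧ c' x = v₀ ∧ x ∉ D' v₀} {x | x ∈ S ∧ c' x = u ∧ x ∉ D' u} := by
    intro u hu h
    rw [cls₀', cls₁' u hu]
    exact h3 u ((hadj₀ u hu).1 h)
  have m2 : ∀ u ∈ l.verts, ¬ G.Adj v₀ u → ¬ Meet {x | x ∈ S ∧ c' x = v₀} {x | x ∈ S ∧ c' x = u} := by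
    intro u hu h
    rw [cls₁ u hu]
    exact lev _ (fun x hx => (mem_cls.1 hx).1) (h3' u hu fun h' => h ((hadj₀ u hu).2 h'))
  have m3 : ∀ u ∈ l.verts, ¬ Meet {x | x ∈ S ∧ c' x = v₀} (D' u : Set E) := by
    intro u hu
    rw [Du u hu]
    exact lev _ (fun x hx => (mem_cls.1 ((h2' u hu).1 hx)).1) (h3'' u hu)
  have m4 : ∀ u ∈ l.verts, ¬ Meet {x | x ∈ S ∧ c' x = u} (D' v₀ : Set E) := by
    intro u hu
    rw [meet_comm, cls₁ u hu, Dv]
    exact not_meet_of_lt f fun x hx y hy => hDF x hx y (mem_cls.1 hy).1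
  refine ⟨c', D', ?_, ?_, ?_, ?_⟩
  · intro v x hx
    rcases hall' v with rfl | hv
    · rw [Dv] at hx
      exact (mem₀ x).2 (Or.inr (Or.inl hx))
    · rw [Du v hv] at hx
      exact (mem₁ v hv x).2 ((h2' v hv).1 hx)
  · intro v
    rcases hall' v with rfl | hv
    · rw [Dv, hD₀]
    · rw [Du v hv, (h2' v hv).2]
  · intro v
    rcases hall' v with rfl | hv
    · obtain ⟨x, hx⟩ := hNne
      refine ⟨x, ?_, ?_, ?_⟩
      · exact (hSmem x).2 (Or.inl hx)
      · exact cN x hx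
      · rw [Dv]
        exact nND x hx
    · -- a vertex of `l`: it has a neighbour
      have hne : ∃ u, u ≠ v ∧ G.Adj u v := by
        have hcon := hG.connected.preconnected v₀ v
        have hv₀ : v₀ ≠ v := fun h => hnd'.1 (h ▸ hv)
        obtain ⟨p⟩ := hcon.symm
        cases p with
        | nil => exact absurd rfl hv₀
        | cons h p => exact ⟨_, h.ne', h.symm⟩
      obtain ⟨u, huv, hadjuv⟩ := hne
      have hm : Meet {x | x ∈ S ∧ c' x = u ∧ x ∉ D' u} {x | x ∈ S ∧ c' x = v ∧ x ∉ D' v} := by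
        rcases hall' u with rfl | hu
        · exact m1 v hv hadjuv
        · have h6 := (h5 u hu v hv huv).1 (by
            have h7 := (hadj u v).1 hadjuv
            rw [hrel, hrel] at h7
            have hu₀ : u ≠ v₀ := fun h => hnd'.1 (h ▸ hu)
            have hv₀ : v ≠ v₀ := fun h => hnd'.1 (h ▸ hv)
            simpa only [hu₀, hv₀, false_and, false_or] using h7)
          rw [cls₁' u hu, cls₁' v hv]
          exact h6
      obtain ⟨z, -, hz⟩ := hm
      rcases Set.eq_empty_or_nonempty {x | x ∈ S ∧ c' x = v ∧ x ∉ D' v} with h | ⟨x, hx⟩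
      · rw [h, convexHull_empty] at hz
        exact hz.elim
      · exact ⟨x, hx⟩
  · intro u v huv
    rcases hall' u with rfl | hu
    · rcases hall' v with rfl | hv
      · exact absurd rfl huv
      · exact ⟨m1 v hv, m2 v hv, m3 v hv⟩
    · rcases hall' v with rfl | hv
      · exact ⟨fun h => (m1 u hu h.symm).symm, fun h h' => m2 u hu (fun h'' => h h''.symm) h'.symm, m4 u hu⟩
      · have h6 := h5 u hu v hv huv
        have hu₀ : u ≠ v₀ := fun h => hnd'.1 (h ▸ hu)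
        have hv₀ : v ≠ v₀ := fun h => hnd'.1 (h ▸ hv)
        unfold PairOK at h6
        rw [cls₁ u hu, cls₁ v hv, cls₁' u hu, cls₁' v hv, Du v hv, hadj, hrel, hrel]
        simpa only [hu₀, hv₀, false_and, false_or] using h6

end Pool.Agent.Helper71.TVW
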